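import Pool.Agent.Lib_helper16.OCN.YcJ_All

/-!
# MP_aeb124_co: number game, attacks in a waiting position (block A2)
-/

set_option autoImplicit false

namespace Pool.Agent.OCN.YC

variable {P : Par} {σ σ' : St} {I : ℕ} {v : Vd}

theorem A2_K (P : Par) : 51 ≤ P.K := by
  have h1 := P.hR
  have h2 := P.hK
  have h3 : P.R0 ≤ kap P.Q P.R0 := (Nat.le_add_right _ _).trans (Nat.le_add_right _ _)
  omega

theorem A2_al (f : ℕ) (v : Vd) : 0 ≤ al f v := by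
  unfold al
  split_ifs
  · exact le_rfl
  · have : (0 : ℤ) ≤ min (max 0 ((v.c : ℤ) - v.m)) (f : ℤ) :=
      le_min (le_max_left _ _) (Int.natCast_nonneg _)
    linarith

theorem A2_nd {v : Vd} {x : ℤ} (hx : 0 ≤ x) : nd v x ≤ 8 * x := by
  unfold nd
  have h1 : (0 : ℤ) ≤ (v.n : ℤ) * v.d + v.p := by positivity
  have : max 0 (x - ((v.n : ℤ) * v.d + v.p)) ≤ x := max_le hx (by linarith)
  linarith

/-- the barrier -/
theorem A2_bar (h : WT P σ v) : 2 * v.c + 12 * P.K ≤ σ.o ∧ 2 * v.E + 12 * P.K ≤ σ.o ∧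
    12 * P.K ≤ σ.o := by
  have hc := h.ws.c
  exact bar (ra := 0) h.ws.sn (by omega) (by have := h.ps; linarith)

theorem A2_le (h : WT P σ v) : ∀ j ∈ σ.β, j ≤ v.c := by
  obtain ⟨τ, γ, -, h1, -⟩ := h.ws.sn.hR
  exact h1

theorem ok_WT (h : WT P σ v) : Ok P.W σ := by
  obtain ⟨b1, b2, b3⟩ := A2_bar h
  have hK := A2_K P
  have hl := A2_le h
  have ha := h.ws.a
  have hr := h.r
  have hE := h.ws.sn.hE
  refine ⟨fun _ => hr, by omega, by omega, fun h1 => absurd h1 (by omega), ?_, ?_, ?_,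
    fun h1 => absurd h1 (by omega)⟩
  · intro j hj
    have := hl j hj
    omega
  · rw [hr, zero_mul]
    exact Nat.zero_le _
  · right
    intro j hj
    have := hl j hj
    rw [hr, zero_mul]
    omega

theorem A2_refl (h : WT P σ v) (I : ℕ) : Good P σ I :=
  ⟨σ, 0, Pays.refl σ, Nat.zero_le _, Or.inl (Or.inr (Or.inl ⟨v, h⟩))⟩

/-- a left attack -/
theorem A2_l {o u ν cb : ℕ} {β : Multiset ℕ} (h : WT P ⟨o + 1, 0, 0, u, 0, ν, cb, β⟩ v) :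
    Good P ⟨o, 0, 0, u, 0, ν, cb, β⟩ (o - (P.W - u)) := by
  obtain ⟨b1, b2, b3⟩ := A2_bar h
  have b1' : 2 * v.c + 12 * P.K ≤ o + 1 := b1
  have b2' : 2 * v.E + 12 * P.K ≤ o + 1 := b2
  have hK := A2_K P
  have hs : Sn P (o + 1) u 0 β v := h.ws.sn
  have hE : P.W ≤ u + v.E := hs.hE
  have hp := st_L_pot (P := P) (v := v) (o := o) (ra := 0) (ra' := 0) (I := o - (P.W - u))
    (by omega)
  have h1 := h.ps
  have e1 := T4_succ P o
  refine gJW (v := v) ⟨⟨st_L hs, rfl, rfl, h.ws.E, h.ws.w, h.ws.z, h.ws.X, h.ws.c, h.ws.A⟩,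
    ?_, ?_, ?_, ?_, ?_⟩
  · show o - (P.W - u) ≤ o + 1
    omega
  · omega
  · have h1' : T4 P (o + 1) ≤ Psi P (o + 1) 0 v + 8 * ((v.c : ℤ) + P.K + 20) := h1
    show T4 P o ≤ Psi P o 0 v + 8 * ((o - (P.W - u) : ℕ) : ℤ) + 8 * ((v.c : ℤ) + 4)
    have := hp.1
    linarith
  · intro hmd
    have h2 : T4 P (o + 1) ≤ Vee P (o + 1) 0 v := h.pv hmd
    show T4 P o ≤ Vee P o 0 v + 8 * ((o - (P.W - u) : ℕ) : ℤ)
    have := hp.2.1
    linarith
  · intro h3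
    have h3' : P.W = u + v.E := h3
    right
    show o - (P.W - u) + v.E = o
    omega

/-- the attack of a left element -/
theorem A2_h {o u ν cb : ℕ} {β : Multiset ℕ} (h : WT P ⟨o + 1, 0, 0, u, 0, ν, cb, β⟩ v) :
    Good P ⟨o, 0, 0, u, 0, ν, cb, 0 ::ₘ β⟩ (o + 1) := by
  obtain ⟨b1, b2, b3⟩ := A2_bar h
  have b1' : 2 * v.c + 12 * P.K ≤ o + 1 := b1
  have b2' : 2 * v.E + 12 * P.K ≤ o + 1 := b2
  have hK := A2_K P
  have hs : Sn P (o + 1) u 0 β v := h.ws.sn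
  have hp := st_h_pot hs (ra := 0) (ra' := 0) (I := o + 1) (by omega)
  have e1 := T4_succ P o
  refine gJW (v := { v with n := v.n + 1 }) ⟨⟨st_h hs, rfl, rfl, h.ws.E, h.ws.w, h.ws.z, h.ws.X,
    h.ws.c, h.ws.A⟩, le_rfl, ?_, ?_, ?_, ?_⟩
  · show v.c + P.K + 21 ≤ o + 1
    omega
  · have h1' : T4 P (o + 1) ≤ Psi P (o + 1) 0 v + 8 * ((v.c : ℤ) + P.K + 20) := h.ps
    show T4 P o ≤ Psi P o 0 { v with n := v.n + 1 } + 8 * ((o + 1 : ℕ) : ℤ) +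
      8 * ((v.c : ℤ) + 4)
    have := hp.1
    linarith
  · intro hmd
    have h2 : T4 P (o + 1) ≤ Vee P (o + 1) 0 v := h.pv hmd
    show T4 P o ≤ Vee P o 0 { v with n := v.n + 1 } + 8 * ((o + 1 : ℕ) : ℤ)
    have := hp.2.1 hmd
    linarith
  · intro _
    left
    show o ≤ o + 1
    omega

/-- attacks of base elements and main starts -/
theorem A2_T {o u ν cb I : ℕ} {β β' : Multiset ℕ} (h : WT P ⟨o + 1, 0, 0, u, 0, ν, cb, β⟩ v)
    (hI : I ≤ o + 1) {v' : Vd} (hs' : Sn P o u 1 β' v') (hc : v'.c = v.c)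
    (hm : v'.m + 1 = v.m) (hX : v'.X ≤ v.X + v.c) (hmd' : v'.md = true → v.md = true)
    (hnd : ∀ need : ℤ, v'.md = true → nd v' need ≤ nd v need)
    (hp1 : v.c ≤ P.f + v.m → Psi P (o + 1) 0 v + 8 * v.c ≤ Psi P o 0 v' + 8 * I)
    (hp2 : v'.md = true → Vee P (o + 1) 0 v + 8 * P.f + 8 * v.m + 8 * P.K + 300 ≤
      Vee P o 0 v' + 8 * I)
    (hp3 : Pee P (o + 1) 0 v + TP P o v' + 40 * P.K ≤ Pee P o 0 v' + TP P (o + 1) v + 8 * I) :
    Good P ⟨o, 0, 0, u, 1, ν, cb, β'⟩ I := by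
  have hK := A2_K P
  have hs : Sn P (o + 1) u 0 β v := h.ws.sn
  have e1 := T4_succ P o
  have hcm : v.c ≤ P.f + v.m := h.ws.c
  have hX0 : v.X = 0 := h.ws.X
  have hal := A2_al P.f v'
  have h1 : T4 P (o + 1) ≤ Psi P (o + 1) 0 v + 8 * ((v.c : ℤ) + P.K + 20) := h.ps
  have hpp := psip (ra := 0) hs (by omega) (Nat.zero_le _) (by omega) (by linarith)
  refine gJC (v := v') ⟨hs', rfl, hI, by omega, ?_, ?_, ?_, ?_⟩
  · have h2 : (v'.c + 1) * (v'.c - (P.f + v'.m)) ≤ (v'.c + 1) * 1 :=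
      Nat.mul_le_mul_left _ (by omega)
    omega
  · show T4 P o ≤ Psi P o 0 v' + 8 * I + al P.f v'
    have := hp1 hcm
    linarith
  · intro hmd
    show T4 P o + nd v' (v'.c + P.K + 20) ≤ Vee P o 0 v' + 8 * I + al P.f v'
    have h2 : T4 P (o + 1) ≤ Vee P (o + 1) 0 v := h.pv (hmd' hmd)
    have h3 := hnd (v'.c + P.K + 20) hmd
    have h4 := A2_nd (v := v) (x := (v'.c : ℤ) + P.K + 20) (by positivity)
    have h5 := hp2 hmd
    have h6 : (v'.c : ℤ) ≤ P.f + v.m := by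
      have : v'.c ≤ P.f + v.m := by omega
      exact_mod_cast this
    linarith
  · intro _
    show TP P o v' ≤ Pee P o 0 v' + 8 * I
    have h2 : (0 : ℤ) ≤ ((o + 1 : ℕ) : ℤ) := Int.natCast_nonneg _
    linarith

theorem A2_b {o u ν cb j : ℕ} {γ : Multiset ℕ}
    (h : WT P ⟨o + 1, 0, 0, u, 0, ν, cb, j ::ₘ γ⟩ v) :
    Good P ⟨o, 0, 0, u, 1, ν, cb, 0 ::ₘ γ⟩ (o - j) := by
  obtain ⟨b1, b2, b3⟩ := A2_bar h
  have b1' : 2 * v.c + 12 * P.K ≤ o + 1 := b1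
  have hK := A2_K P
  have hs : Sn P (o + 1) u 0 (j ::ₘ γ) v := h.ws.sn
  have hj : j ≤ v.c := A2_le h j (Multiset.mem_cons_self _ _)
  have hc := h.ws.c
  obtain ⟨v', g1, g2, g3, g4, g5, g6, g7, g8, g9, g10, g11⟩ := st_T hs h.ws.E (by omega)
  obtain ⟨q1, q2, q3, q4⟩ := g11 0 0 (o - j) (by omega)
  exact A2_T h (by omega) g1 g4 g5 g6 g8 g10 q2 q3 q4

theorem A2_f {o u ν cb : ℕ} {β : Multiset ℕ} (h : WT P ⟨o + 1, 0, 0, u, 0, ν, cb, β⟩ v) :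
    Good P ⟨o, 0, 0, u, 1, ν, cb, β⟩ (o + 1) := by
  have hs : Sn P (o + 1) u 0 β v := h.ws.sn
  have hc := h.ws.c
  obtain ⟨v', g1, g2, g3, g4, g5, g6, g8, g9, g10, g11⟩ := st_F hs h.ws.E (by omega)
  obtain ⟨q1, q2, q3, q4⟩ := g11 0 0 (o + 1) (by omega)
  exact A2_T h le_rfl g1 g4 g5 g6 g8 g10 q2 q3 q4

theorem A2_r4 {o u ν cb : ℕ} {β : Multiset ℕ} (h : WT P ⟨o, 0, 0, u, 0, ν, cb, β⟩ v) :
    Good P ⟨o, 0, 0, u, 0, ν, cb, β⟩ (o + 1) := A2_refl h _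

theorem att_WT (h : WT P σ v) (ha : Att P.W σ σ' I) : Good P σ' I := by
  have ha0 := h.ws.a
  have hr0 := h.r
  have hμ0 := h.ws.μ
  cases ha with
  | lR o a r u μ ν cb β h1 =>
    simp only at ha0 hr0 hμ0
    subst ha0 hr0 hμ0
    exact A2_l h
  | lA o a r u μ ν cb β =>
    simp only at ha0
    omega
  | hR o a r u μ ν cb β h1 =>
    simp only at ha0 hr0 hμ0
    subst ha0 hr0 hμ0
    exact A2_h h
  | hA o a r u μ ν cb β =>
    simp only at ha0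
    omega
  | b0 o r u μ ν cb j γ =>
    simp only at hr0 hμ0
    subst hr0 hμ0
    exact A2_b h
  | bA o a r u μ ν cb j γ =>
    simp only at ha0
    omega
  | bC o a r u μ ν cb j γ h1 =>
    simp only at ha0 hr0 hμ0
    subst ha0 hr0 hμ0
    exact A2_b h
  | bR o a r u μ ν cb j γ h1 =>
    simp only at ha0 hr0 hμ0
    subst ha0 hr0 hμ0
    exfalso
    obtain ⟨b1, b2, b3⟩ := A2_bar h
    have b1' : 2 * v.c + 12 * P.K ≤ o + 1 := b1
    have hK := A2_K P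
    have hj : j ≤ v.c := A2_le h j (Multiset.mem_cons_self _ _)
    omega
  | f0 o r u μ ν cb β =>
    simp only at hr0 hμ0
    subst hr0 hμ0
    exact A2_f h
  | fA o a r u μ ν cb β =>
    simp only at ha0
    omega
  | fC o a r u μ ν cb β h1 =>
    simp only at ha0 hr0 hμ0
    subst ha0 hr0 hμ0
    exact A2_f h
  | ws o a r u μ ν β =>
    simp only at ha0
    omega
  | wl o a u μ ν cb β h1 =>
    simp only at ha0
    omega
  | r4 o a r u μ ν cb β h1 =>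
    simp only at ha0 hr0 hμ0
    subst ha0 hr0 hμ0
    exact A2_r4 h
  | r5f o a r u μ ν cb β =>
    simp only at hμ0
    omega
  | r5b o a r u μ ν cb j γ =>
    simp only at ha0 hr0 hμ0
    subst ha0 hr0 hμ0
    have hs : Sn P o (u + 1) 0 γ v := st_5b h.ws.sn
    have hw : WT P ⟨o, 0, 0, u + 1, 0, ν, cb, γ⟩ v :=
      ⟨⟨hs, rfl, rfl, h.ws.E, h.ws.w, h.ws.z, h.ws.X, h.ws.c, h.ws.A⟩, rfl, h.ps, h.pv⟩
    exact A2_refl hw _
  | nil σ => exact A2_refl h _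

end Pool.Agent.OCN.YC
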